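import Pool.Agent.H80.L.R_pool_sql_team_seeded_63374d34.N314.OP.NearMain
import Pool.Agent.H80.L.R_pool_sql_team_seeded_63374d34.N314.OP.Ess

/-!
# Banach-Mazur rotation problem: a dichotomy for compact operators

Let `E` be a separable infinite-dimensional real Banach space whose isometry group has dense
orbits on the unit sphere, and assume that for all `p < 2 < q` it is isomorphic to a `p`-uniformly
smooth and to a `q`-uniformly convex space (for instance, `E` is isomorphic to a Hilbert space).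
Either `E` is isometric to a Hilbert space, or there is `c > 0` such that `‖1 - K‖ ≥ 1 + c ‖K‖`
for all compact operators `K`.
-/

set_option autoImplicit false

namespace Pool.Agent.Results.MP_cc72b1_an.CompactDichotomy

open Filter Topology

/-- `E` is linearly isometric to a Hilbert space -/
def IsHilbert (E : Type) [NormedAddCommGroup E] [NormedSpace ℝ E] : Prop :=
  ∃ (H : Type) (_ : NormedAddCommGroup H) (_ : InnerProductSpace ℝ H) (_ : CompleteSpace H),
    Nonempty (E ≃ₗᵢ[ℝ] H)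

/-- `E` is linearly isomorphic to a Hilbert space -/
def Hilbertian (E : Type) [NormedAddCommGroup E] [NormedSpace ℝ E] : Prop :=
  ∃ (H : Type) (_ : NormedAddCommGroup H) (_ : InnerProductSpace ℝ H) (_ : CompleteSpace H),
    Nonempty (E ≃L[ℝ] H)

/-- for all `1 < p < 2 < q` the space `E` is linearly isomorphic to a space which is uniformly
smooth of power type `p`, and to a space which is uniformly convex of power type `q` -/
def NearHilbert (E : Type) [NormedAddCommGroup E] [NormedSpace ℝ E] : Prop :=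
  ∀ p q : ℝ, 1 < p → p < 2 → 2 < q →
    (∃ (F : Type) (_ : NormedAddCommGroup F) (_ : NormedSpace ℝ F) (K : ℝ),
      Nonempty (E ≃L[ℝ] F) ∧ ∀ x w : F, ‖x‖ = 1 → ‖x + w‖ + ‖x - w‖ ≤ 2 + K * ‖w‖ ^ p) ∧
    ∃ (F : Type) (_ : NormedAddCommGroup F) (_ : NormedSpace ℝ F) (c : ℝ), 0 < c ∧
      Nonempty (E ≃L[ℝ] F) ∧
      ∀ x w : F, c * ‖w‖ ^ q ≤ ‖x + w‖ ^ q + ‖x - w‖ ^ q - 2 * ‖x‖ ^ q

lemma nearHilbert_of {E : Type} [NormedAddCommGroup E] [NormedSpace ℝ E]
    (h : Hilbertian E) : NearHilbert E := by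
  obtain ⟨H, _, _, _, ⟨Φ⟩⟩ := h
  refine fun p q hp1 hp2 hq => ⟨⟨H, inferInstance, inferInstance, 2,
    ⟨Φ⟩, fun x w hx => ?_⟩, ⟨H, inferInstance, inferInstance, 2, two_pos, ⟨Φ⟩, fun x w => ?_⟩⟩
  · have h := N314.OP.hilbert_USp (H := H) (η := 2 - p) (by linarith) (by linarith) x w hx
    rwa [sub_sub_cancel] at h
  · have h := N314.OP.hilbert_UCq (H := H) (η := q - 2) (by linarith) x w
    rwa [add_sub_cancel] at h

theorem result :
    ∀ (E : Type) [NormedAddCommGroup E] [NormedSpace ℝ E] [CompleteSpace E]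
      [TopologicalSpace.SeparableSpace E],
      ¬ FiniteDimensional ℝ E →
      (∀ x y : E, ‖x‖ = 1 → ‖y‖ = 1 → ∀ ε : ℝ, 0 < ε → ∃ T : E ≃ₗᵢ[ℝ] E, ‖T x - y‖ < ε) →
      (Hilbertian E → NearHilbert E) ∧
      (NearHilbert E →
      -- the dichotomy
      (¬ IsHilbert E ↔ ∃ c : ℝ, 0 < c ∧ ∀ K : E →L[ℝ] E, IsCompactOperator K →
        1 + c * ‖K‖ ≤ ‖ContinuousLinearMap.id ℝ E - K‖) ∧
      -- contractive compact perturbations of the identity
      (IsHilbert E ↔ ∃ K : E →L[ℝ] E, IsCompactOperator K ∧ K ≠ 0 ∧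
        ‖ContinuousLinearMap.id ℝ E - K‖ ≤ 1)) := by
  intro E _ _ _ _ hinf hA
  refine ⟨nearHilbert_of, fun hN => ?_⟩
  have hnt : Nontrivial E := by
    by_contra h
    rw [not_nontrivial_iff_subsingleton] at h
    exact hinf inferInstance
  obtain ⟨e₀, he₀⟩ : ∃ e : E, ‖e‖ = 1 := exists_norm_eq E zero_le_one
  have fromO : N314.OP.OpialL E → IsHilbert E := by
    intro hO
    have h1 : ∀ η : ℝ, 0 < η → η < 1 → ∃ K : ℝ, 0 < K ∧ N314.OP.Mod.USp E (2 - η) K := by
      intro η h0 h1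
      obtain ⟨⟨F, _, _, K, ⟨Φ⟩, hK⟩, -⟩ := hN (2 - η) 3 (by linarith) (by linarith) (by norm_num)
      exact N314.OP.Mod.smooth_AT hA Φ (by linarith) hK
    have h2 : ∀ η : ℝ, 0 < η → η < 1 → ∃ c : ℝ, 0 < c ∧ N314.OP.Mod.UCq E (2 + η) c := by
      intro η h0 h1
      obtain ⟨-, F, _, _, c, hc, ⟨Φ⟩, hK⟩ := hN (3 / 2) (2 + η) (by norm_num) (by norm_num)
        (by linarith)
      exact N314.OP.Mod.convex_AT hA Φ (by linarith) hc hK
    exact ⟨E, inferInstance,
      InnerProductSpace.ofNorm ℝ (N314.OP.main_near hA hinf h1 h2 hO), inferInstance,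
      ⟨LinearIsometryEquiv.refl ℝ E⟩⟩
  have main : (∀ c : ℝ, 0 < c → ∃ K : E →L[ℝ] E, IsCompactOperator K ∧
      ‖ContinuousLinearMap.id ℝ E - K‖ < 1 + c * ‖K‖) → IsHilbert E :=
    fun h => fromO (N314.OP.opialL_of_seq hA hnt h)
  have conv : IsHilbert E → ∃ K : E →L[ℝ] E, IsCompactOperator K ∧ K ≠ 0 ∧
      ‖ContinuousLinearMap.id ℝ E - K‖ ≤ 1 := by
    rintro ⟨H', _, _, _, ⟨Ψ⟩⟩
    obtain ⟨f, h1, hle⟩ := N314.OP.hilbert_proj Ψ he₀
    refine ⟨f.smulRight e₀, ?_, ?_, ?_⟩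
    · have h1 : IsCompactOperator (f : E → ℝ) := isCompactOperator_of_locallyCompactSpace_dom f
      exact h1.clm_comp (ContinuousLinearMap.toSpanSingleton ℝ e₀)
    · intro h0
      have h2 : f.smulRight e₀ e₀ = e₀ := by
        rw [ContinuousLinearMap.smulRight_apply, h1, one_smul]
      rw [h0] at h2
      change (0 : E) = e₀ at h2
      rw [← h2, norm_zero] at he₀
      exact zero_ne_one he₀
    · refine ContinuousLinearMap.opNorm_le_bound _ zero_le_one fun x => ?_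
      have h2 : (ContinuousLinearMap.id ℝ E - f.smulRight e₀) x = x - f x • e₀ := rfl
      rw [h2, one_mul]
      exact hle x
  have lt_of : ∀ K : E →L[ℝ] E, K ≠ 0 → ‖ContinuousLinearMap.id ℝ E - K‖ ≤ 1 →
      ∀ c : ℝ, 0 < c → ‖ContinuousLinearMap.id ℝ E - K‖ < 1 + c * ‖K‖ := by
    intro K hK h c hc
    have : 0 < ‖K‖ := norm_pos_iff.2 hK
    have : 0 < c * ‖K‖ := by positivity
    linarith
  refine ⟨⟨fun h => ?_, ?_⟩, ⟨conv, ?_⟩⟩
  · by_contra hcon
    push Not at hcon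
    exact h (main hcon)
  · rintro ⟨c, hc, h⟩ hHil
    obtain ⟨K, hK1, hK2, hK3⟩ := conv hHil
    exact absurd (lt_of K hK2 hK3 c hc) (not_lt.2 (h K hK1))
  · rintro ⟨K, hK1, hK2, hK3⟩
    exact main fun c hc => ⟨K, hK1, lt_of K hK2 hK3 c hc⟩

end Pool.Agent.Results.MP_cc72b1_an.CompactDichotomy
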